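import Pool.Agent.Lib.MP76b19e.Reg.Fin

/-! Forced cliques in graphs that are not degree-majorized by r-partite graphs (MP_76b19e_co):
the exact value of `m(n,k,r)` for every `r`, all `n ≥ 200 (r + 1) ^ 5` and all `k`. -/

namespace Pool.Agent.Results.MP_76b19e_co.LargeOrder

open Pool.Agent.MP76b19e MP76b19e.Reg

/-- Let `r ≥ 1` and `n ≥ 200 (r + 1) ^ 5`. For every `k`: non-majorizable graphs with `n` vertices and
maximum degree `k` exist iff `k < n` and `r (n - k) < n`; then the least number of `(r + 1)`-cliques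
of such a graph is `formula n k r`, which is `k` for `r = 1` and `(n - k) ^ (r - 1 - j)` for `r ≥ 2`,
`j` being the largest number `≤ r - 1` with `j (j + 1) / 2 ≤ n - r (n - k) - 1`. -/
theorem result (n k r : ℕ) (hr : 1 ≤ r) (hn : 200 * (r + 1) ^ 5 ≤ n) :
    ((counts n k r).Nonempty ↔ k < n ∧ r * (n - k) < n) ∧
    (k < n → r * (n - k) < n → IsLeast (counts n k r) (formula n k r)) :=
  large_order n k r hr hn

end Pool.Agent.Results.MP_76b19e_co.LargeOrder
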